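import Mathlib
import Pool.Agent.Helper278.DefsG
import Pool.Agent.Helper278.CEStmt
import Pool.Agent.Helper436.SM.Stmt
import Pool.Agent.Helper436.SN.StmtG

set_option autoImplicit false

open scoped Topology
open Filter

namespace Pool.Agent.H756R2

open Pool.Agent.Helper278 Pool.Agent.Helper436.SM Pool.Agent.Helper436.SN

/-- A unital completely positive map `A → A`: for every `n`, applying `f` entrywise to a matrix
`X* X` over `A` gives a positive matrix, that is, a finite sum of matrices `Y* Y`. -/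
structure IsUCP {A : Type} [Ring A] [StarRing A] [Algebra ℂ A] (f : A →ₗ[ℂ] A) : Prop where
  one : f 1 = 1
  cp : ∀ (n : ℕ) (X : Matrix (Fin n) (Fin n) A), (star X * X).map f ∈
    AddSubmonoid.closure (Set.range fun Y : Matrix (Fin n) (Fin n) A => star Y * Y)

/-- `Φ` is the ultraproduct map `(f_n)_U` of the maps `f_n : A → A` on the ultrapower `Q` of `A`
with quotient map `π`: it maps the class of a bounded sequence `(x_n)` to the class of the bounded
sequence `(f_n(x_n))`. -/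
def IsUltraMap {A : Type} [CStarAlgebra A] {Q : Type} (π : (ℕ → A) → Q) (f : ℕ → A → A)
    (Φ : Q → Q) : Prop :=
  ∀ x, CE.BddFam x → CE.BddFam (fun n => f n (x n)) ∧ Φ (π x) = π fun n => f n (x n)

/-- `θ₁` and `θ₂ : B → Q = A^U` are ucp conjugate: `Φ ∘ θ₁ = θ₂` for the ultraproduct map `Φ` of a
sequence of ucp maps `A → A`. -/
def UCPConj {A : Type} [CStarAlgebra A] {Q B : Type} (π : (ℕ → A) → Q) (θ₁ θ₂ : B → Q) : Prop :=
  ∃ (f : ℕ → A →ₗ[ℂ] A) (Φ : Q → Q), (∀ n, IsUCP (f n)) ∧ IsUltraMap π (fun n => f n) Φ ∧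
    ∀ x, Φ (θ₁ x) = θ₂ x

/-- `θ₁` and `θ₂ : B → Q` are unitarily conjugate. -/
def UnitaryConj {Q B : Type} [Ring Q] [StarRing Q] (θ₁ θ₂ : B → Q) : Prop :=
  ∃ u ∈ unitary Q, ∀ x, u * θ₁ x * star u = θ₂ x

/-- `θ` is an embedding: a trace preserving unital star homomorphism. (Between tracial von Neumann
algebras these are injective and normal.) -/
structure IsEmbedding {B : Type} [CStarAlgebra B] (σ : B → ℂ) {Q : Type} [Ring Q] [StarRing Q]
    [Algebra ℂ Q] (φ : Q → ℂ) (θ : B → Q) : Prop where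
  hom : ∃ f : B →⋆ₐ[ℂ] Q, ⇑f = θ
  trace : ∀ x, φ (θ x) = σ x

/-- Negative instance of the question for the tracial von Neumann algebra `(A, τ)` and the II₁
factor `(B, σ)`: `(B, σ)` has two embeddings `θ₁`, `θ₂` into the tracial ultrapower `(Q, φ) = A^U`
that are ucp conjugate but not unitarily conjugate. -/
def UcpNotUnitary (U : Ultrafilter ℕ) {A : Type} [CStarAlgebra A] (τ : A → ℂ) {B : Type}
    [CStarAlgebra B] (σ : B → ℂ) : Prop :=
  ∃ (Q : Type) (_ : Ring Q) (_ : StarRing Q) (_ : Algebra ℂ Q) (π : (ℕ → A) → Q) (φ : Q → ℂ)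
    (θ₁ θ₂ : B → Q), CE.IsTracialUltrapower τ U π φ ∧ IsEmbedding σ φ θ₁ ∧ IsEmbedding σ φ θ₂ ∧
      UCPConj π θ₁ θ₂ ∧ ¬ UnitaryConj θ₁ θ₂

end Pool.Agent.H756R2
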