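import Mathlib
import Pool.Agent.H756R2.UcpStmt
import Pool.Agent.Helper436.SM.Transfer

set_option autoImplicit false
set_option linter.unusedSectionVars false

open scoped Topology InnerProductSpace
open Filter

namespace Pool.Agent.H756R2

open Pool.Agent.Helper278 Pool.Agent.Helper436.SM Pool.Agent.Helper436.SN

/-- star homomorphisms are ucp -/
theorem isUCP_hom {A : Type} [Ring A] [StarRing A] [Algebra ℂ A] (F : A →⋆ₐ[ℂ] A) :
    IsUCP (F.toAlgHom.toLinearMap) := by
  refine ⟨map_one F, ?_⟩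
  intro n X
  refine AddSubmonoid.subset_closure ⟨X.map F, ?_⟩
  ext i j
  show (star (X.map F) * X.map F) i j = F ((star X * X) i j)
  rw [Matrix.mul_apply, Matrix.mul_apply, map_sum]
  refine Finset.sum_congr rfl fun k _ => ?_
  rw [map_mul]
  congr 1
  show star (F (X k i)) = F (star (X k i))
  rw [map_star]

section

variable {H : Type} [NormedAddCommGroup H] [InnerProductSpace ℂ H] [CompleteSpace H]
variable {N : VonNeumannAlgebra H} {T : TracialState N} {U : Ultrafilter ℕ}
variable {Q : Type} [Ring Q] [StarRing Q] [Algebra ℂ Q] {π : (ℕ → Elt N) → Q} {φ : Q → ℂ}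

/-- the diagonal embedding -/
noncomputable def diag (hπ : CE.IsTracialUltrapower (fun x => T.τ x) U π φ) : Elt N →⋆ₐ[ℂ] Q where
  toFun x := π fun _ => x
  map_one' := hπ.quot.one
  map_mul' x y := hπ.quot.mul _ _ (CE.bdd_const x) (CE.bdd_const y)
  map_zero' := by
    have h := hπ.quot.smul 0 (fun _ => (0 : Elt N)) (CE.bdd_const 0)
    have e : (fun i : ℕ => (0 : ℂ) • (fun _ : ℕ => (0 : Elt N)) i) = fun _ => 0 := by
      funext i
      rw [zero_smul]
    rw [e, zero_smul] at h
    exact h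
  map_add' x y := hπ.quot.add _ _ (CE.bdd_const x) (CE.bdd_const y)
  commutes' c := by
    rw [Algebra.algebraMap_eq_smul_one, Algebra.algebraMap_eq_smul_one, ← hπ.quot.one]
    exact hπ.quot.smul c _ (CE.bdd_const 1)
  map_star' x := hπ.quot.star _ (CE.bdd_const x)

theorem diag_apply (hπ : CE.IsTracialUltrapower (fun x => T.τ x) U π φ) (x : Elt N) :
    diag hπ x = π fun _ => x := rfl

theorem diag_trace (hπ : CE.IsTracialUltrapower (fun x => T.τ x) U π φ) (x : Elt N) :
    φ (diag hπ x) = T.τ x := by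
  have h := hπ.trace (fun _ => x) (CE.bdd_const x)
  exact tendsto_nhds_unique h tendsto_const_nhds

theorem n2_zero' (hπ : CE.IsTracialUltrapower (fun x => T.τ x) U π φ) : n2 φ (0 : Q) = 0 := by
  have h := diag_trace hπ 0
  rw [map_zero, map_zero] at h
  unfold n2
  rw [mul_zero, h, Complex.zero_re, Real.sqrt_zero]

/-- a trace preserving star endomorphism gives ucp conjugate embeddings -/
theorem ucpConj_hom (hπ : CE.IsTracialUltrapower (fun x => T.τ x) U π φ)
    (F : Elt N →⋆ₐ[ℂ] Elt N) (hF : ∀ x, T.τ (F x) = T.τ x) :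
    UCPConj π (diag hπ) ((diag hπ).comp F) := by
  classical
  choose s hs1 hs2 using hπ.quot.surj
  have hb : ∀ x : ℕ → Elt N, CE.BddFam x → CE.BddFam fun n => F (x n) := by
    rintro x ⟨C, hC⟩
    exact ⟨C, fun n => (NonUnitalStarAlgHom.norm_apply_le F (x n)).trans (hC n)⟩
  refine ⟨fun _ => F.toAlgHom.toLinearMap, fun q => π fun n => F (s q n), fun _ => isUCP_hom F,
    ?_, ?_⟩
  · intro x hx
    refine ⟨hb x hx, ?_⟩
    show π (fun n => F (s (π x) n)) = π fun n => F (x n)
    rw [hπ.quot.eq_iff (hb _ (hs1 _)) (hb _ hx)]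
    have h1 := (hπ.quot.eq_iff (hs1 (π x)) hx).1 (hs2 _)
    refine h1.congr fun n => ?_
    show T.τ (star (s (π x) n - x n) * (s (π x) n - x n)) =
      T.τ (star (F (s (π x) n) - F (x n)) * (F (s (π x) n) - F (x n)))
    rw [← map_sub, ← map_star, ← map_mul, hF]
  · intro x
    show π (fun n => F (s (π fun _ => x) n)) = π fun _ => F x
    rw [hπ.quot.eq_iff (hb _ (hs1 _)) (CE.bdd_const _)]
    have h1 := (hπ.quot.eq_iff (hs1 (π fun _ => x)) (CE.bdd_const x)).1 (hs2 _)
    refine h1.congr fun n => ?_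
    show T.τ (star (s (π fun _ => x) n - x) * (s (π fun _ => x) n - x)) =
      T.τ (star (F (s (π fun _ => x) n) - F x) * (F (s (π fun _ => x) n) - F x))
    rw [← map_sub, ← map_star, ← map_mul, hF]

end

end Pool.Agent.H756R2
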