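import Mathlib
import Pool.Agent.H756R2.UcpGen
import Pool.Agent.Helper159.GM.Inst
import Pool.Agent.Helper159.GM.JFreeAct
import Pool.Agent.Helper159.GM.JFreeConj
import Pool.Agent.Helper436.SN.Bridge
import Pool.Agent.Helper436.SN.H4
import Pool.Agent.Helper436.SN.K2
import Pool.Agent.Helper278.CEIter
import Pool.Agent.Helper436.SN.CEG

set_option autoImplicit false
set_option linter.unusedSectionVars false

open scoped Topology InnerProductSpace
open Filter

namespace Pool.Agent.H756R2

open Pool.Agent.Helper278 Pool.Agent.Helper436.SM Pool.Agent.Helper436.SN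
open Pool.Agent.Helper278.CE hiding F2
open Pool.Agent.Helper159.GM (F2 free_act free_conj GVN gvn uL opL)

/-- the group `F₂ × F₂` -/
abbrev FF : Type := F2 × F2

/-- the action `s • (x, y) = (x s⁻¹, s y)` -/
@[reducible] def twAct : MulAction F2 FF where
  smul s p := (p.1 * s⁻¹, s * p.2)
  one_smul p := by
    show (p.1 * (1 : F2)⁻¹, 1 * p.2) = p
    simp
  mul_smul s t p := by
    show (p.1 * (s * t)⁻¹, s * t * p.2) = (p.1 * t⁻¹ * s⁻¹, s * (t * p.2))
    simp [mul_assoc]

/-- the same as a permutation -/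
def tw (s : F2) : FF ≃ FF where
  toFun p := (p.1 * s⁻¹, s * p.2)
  invFun p := (p.1 * s, s⁻¹ * p.2)
  left_inv p := by simp
  right_inv p := by simp

theorem tw_gap (f : EllTwo FF) (t : ℝ) (h1 : ‖permOp (tw (FreeGroup.of true)) f - f‖ ≤ t)
    (h2 : ‖permOp (tw (FreeGroup.of false)) f - f‖ ≤ t) : ‖f‖ ≤ 20 * t := by
  letI := twAct
  obtain ⟨B, E, k1, k2, k3, k4, k5⟩ := free_act (X := FF) (by
    intro g x h
    have h' : (x.1 * g⁻¹, g * x.2) = x := h
    have h'' : g * x.2 = x.2 := congrArg Prod.snd h'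
    exact mul_eq_right.1 h'')
  refine gap_estimate B E (tw (FreeGroup.of true)) (tw (FreeGroup.of false)) k1 ?_ ?_ ?_ f ?_ t h1 h2
  · rw [Set.disjoint_right]
    rintro _ ⟨x, hx, rfl⟩
    exact k3 x hx
  · rw [Set.disjoint_right]
    rintro _ ⟨_, ⟨x, hx, rfl⟩, rfl⟩
    exact k4 x hx
  · rintro _ ⟨x, hx, rfl⟩
    exact k5 x hx
  · intro g hg
    exact absurd (by rw [k2]; trivial) hg

/-- the flip of `F₂ × F₂` on `ℓ²` -/
noncomputable def flipW : EllTwo FF →L[ℂ] EllTwo FF := permOp (Equiv.prodComm F2 F2)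

theorem star_flipW : star flipW = flipW := by
  unfold flipW
  rw [star_permOp]
  rfl

theorem flipW_sq : flipW * flipW = 1 := by
  unfold flipW
  rw [permOp_mul]
  exact permOp_refl

theorem flipW_lam (g : FF) : flipW * lamK (sb FF) g * flipW = lamK (sb FF) (g.2, g.1) := by
  apply ext_basis (sb FF)
  intro k
  have e : ∀ k : FF, flipW (sb FF k) = sb FF (k.2, k.1) := by
    intro k
    have h := permK_basis (sb FF) (Equiv.prodComm F2 F2) k
    rw [permK_sb] at h
    exact h
  show flipW (lamK (sb FF) g (flipW (sb FF k))) = _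
  rw [e, lamK_basis, e, lamK_basis]
  rfl

theorem flip_mem (x : EllTwo FF →L[ℂ] EllTwo FF) (hx : x ∈ LK (sb FF)) :
    flipW * x * flipW ∈ LK (sb FF) := by
  rw [mem_LK] at hx ⊢
  intro t ht
  have ht' : flipW * t * flipW ∈ StarSubalgebra.centralizer ℂ (Set.range (lamK (sb FF))) := by
    rw [mem_comm] at ht ⊢
    intro g
    have h1 := ht (g.2, g.1)
    rw [← flipW_lam g] at h1
    have h2 := congrArg (fun z => flipW * z * flipW) h1
    have e1 : flipW * (flipW * lamK (sb FF) g * flipW * t) * flipW =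
        (flipW * flipW) * lamK (sb FF) g * (flipW * t * flipW) := by noncomm_ring
    have e2 : flipW * (t * (flipW * lamK (sb FF) g * flipW)) * flipW =
        (flipW * t * flipW) * lamK (sb FF) g * (flipW * flipW) := by noncomm_ring
    rw [e1, e2, flipW_sq, one_mul, mul_one] at h2
    exact h2
  obtain ⟨h1, h2⟩ := hx _ ht'
  have hst : star (flipW * t * flipW) = flipW * star t * flipW := by
    rw [star_mul, star_mul, star_flipW, mul_assoc]
  rw [hst] at h2
  constructor
  · have h3 := congrArg (fun z => flipW * z * flipW) h1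
    have e1 : flipW * (flipW * t * flipW * x) * flipW = (flipW * flipW) * t * (flipW * x * flipW) := by
      noncomm_ring
    have e2 : flipW * (x * (flipW * t * flipW)) * flipW = (flipW * x * flipW) * t * (flipW * flipW) := by
      noncomm_ring
    rw [e1, e2, flipW_sq, one_mul, mul_one] at h3
    exact h3
  · have h3 := congrArg (fun z => flipW * z * flipW) h2
    have e1 : flipW * (flipW * star t * flipW * x) * flipW =
        (flipW * flipW) * star t * (flipW * x * flipW) := by noncomm_ring
    have e2 : flipW * (x * (flipW * star t * flipW)) * flipW =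
        (flipW * x * flipW) * star t * (flipW * flipW) := by noncomm_ring
    rw [e1, e2, flipW_sq, one_mul, mul_one] at h3
    exact h3

/-- the flip automorphism of `L(F₂ × F₂)` -/
noncomputable def flipF : Elt (LK (sb FF)) →⋆ₐ[ℂ] Elt (LK (sb FF)) where
  toFun x := ⟨flipW * (x : EllTwo FF →L[ℂ] EllTwo FF) * flipW, flip_mem _ x.2⟩
  map_one' := Subtype.ext (by
    show flipW * 1 * flipW = 1
    rw [mul_one, flipW_sq])
  map_mul' x y := Subtype.ext (by
    show flipW * ((x : EllTwo FF →L[ℂ] EllTwo FF) * y) * flipW =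
      flipW * x * flipW * (flipW * y * flipW)
    have : flipW * (x : EllTwo FF →L[ℂ] EllTwo FF) * flipW * (flipW * y * flipW) =
      flipW * x * (flipW * flipW) * y * flipW := by noncomm_ring
    rw [this, flipW_sq, mul_one]
    noncomm_ring)
  map_zero' := Subtype.ext (by
    show flipW * 0 * flipW = 0
    simp)
  map_add' x y := Subtype.ext (by
    show flipW * ((x : EllTwo FF →L[ℂ] EllTwo FF) + y) * flipW = flipW * x * flipW + flipW * y * flipW
    rw [mul_add, add_mul])
  commutes' c := Subtype.ext (by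
    show flipW * (algebraMap ℂ (EllTwo FF →L[ℂ] EllTwo FF) c) * flipW = algebraMap ℂ _ c
    rw [Algebra.algebraMap_eq_smul_one, mul_smul_comm, mul_one, smul_mul_assoc, flipW_sq])
  map_star' x := Subtype.ext (by
    show flipW * star (x : EllTwo FF →L[ℂ] EllTwo FF) * flipW = star (flipW * x * flipW)
    rw [star_mul, star_mul, star_flipW, mul_assoc])

theorem flipF_u (g : FF) : flipF (uL FF g) = uL FF (g.2, g.1) := Subtype.ext (flipW_lam g)

theorem flipF_trace (x : Elt (LK (sb FF))) :
    (Helper278.RG.TL (sb FF)).τ (flipF x) = (Helper278.RG.TL (sb FF)).τ x := by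
  have e : flipW (sb FF 1) = sb FF 1 := by
    have h := permK_basis (sb FF) (Equiv.prodComm F2 F2) 1
    rw [permK_sb] at h
    exact h
  show ⟪sb FF 1, flipW ((x : EllTwo FF →L[ℂ] EllTwo FF) (flipW (sb FF 1)))⟫_ℂ =
    ⟪sb FF 1, (x : EllTwo FF →L[ℂ] EllTwo FF) (sb FF 1)⟫_ℂ
  rw [e, ← ContinuousLinearMap.adjoint_inner_left, ← ContinuousLinearMap.star_eq_adjoint,
    star_flipW, e]

end Pool.Agent.H756R2
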