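import Mathlib
import Pool.Agent.H756R2.UcpFlip

set_option autoImplicit false
set_option linter.unusedSectionVars false

open scoped Topology InnerProductSpace
open Filter

namespace Pool.Agent.H756R2

open Pool.Agent.Helper278 Pool.Agent.Helper436.SM Pool.Agent.Helper436.SN
open Pool.Agent.Helper278.CE hiding F2
open Pool.Agent.Helper159.GM (F2 free_act free_conj GVN gvn uL opL)

theorem tw_eq (s : F2) (p : FF) : ((1, s) : FF) * p * ((s, 1) : FF)⁻¹ = tw s p := by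
  show (1 * p.1 * s⁻¹, s * p.2 * (1 : F2)⁻¹) = (p.1 * s⁻¹, s * p.2)
  simp

theorem n2_tw (x : Elt (LK (sb FF))) (s : F2) :
    n2 (Helper278.RG.TL (sb FF)).τ (x * uL FF (s, 1) - uL FF (1, s) * x) =
      ‖permOp (tw s) (opL FF x (sb FF 1)) - opL FF x (sb FF 1)‖ := by
  have hg := gvn (G := FF)
  have h0 := hg.n2_eq (x * uL FF (s, 1) - uL FF (1, s) * x)
  have h1 : n2 (Helper278.RG.TL (sb FF)).τ (x * uL FF (s, 1) - uL FF (1, s) * x) =
      ‖opL FF (x * uL FF (s, 1) - uL FF (1, s) * x) (sb FF 1)‖ := h0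
  rw [h1, ← norm_permOp (Equiv.mulLeft ((1, s) : FF)), map_sub]
  congr 1
  ext k
  show (opL FF (x * uL FF (s, 1)) (sb FF 1)) (((1, s) : FF) * k) -
    (opL FF (uL FF (1, s) * x) (sb FF 1)) (((1, s) : FF) * k) =
    (opL FF x (sb FF 1)) (tw s k) - (opL FF x (sb FF 1)) k
  rw [hg.hat_mul_u, hg.hat_u_mul, tw_eq, inv_mul_cancel_left]

section

variable {U : Ultrafilter ℕ} {Q : Type} [Ring Q] [StarRing Q] [Algebra ℂ Q]
  {π : (ℕ → Elt (LK (sb FF))) → Q} {φ : Q → ℂ}

theorem flip_not_conj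
    (hπ : CE.IsTracialUltrapower (fun x => (Helper278.RG.TL (sb FF)).τ x) U π φ) :
    ¬ UnitaryConj (diag hπ) ((diag hπ).comp flipF) := by
  rintro ⟨u, hu, h⟩
  obtain ⟨w, hw, rfl⟩ := exists_lift hπ u hu
  have key : ∀ s : F2, Tendsto (fun n => ‖permOp (tw s) (opL FF (w n) (sb FF 1)) -
      opL FF (w n) (sb FF 1)‖) U (𝓝 0) := by
    intro s
    have h1 := h (uL FF (s, 1))
    have h2 : π w * π (fun _ => uL FF (s, 1)) - π (fun _ => uL FF (1, s)) * π w = 0 := by
      have e : ((diag hπ).comp flipF) (uL FF (s, 1)) = π (fun _ => uL FF (1, s)) := by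
        show π (fun _ => flipF (uL FF (s, 1))) = _
        rw [flipF_u]
      rw [e, diag_apply] at h1
      rw [← h1, mul_assoc (π w * _), (Unitary.mem_iff.1 hu).1, mul_one, sub_self]
    have hb := bdd_un hw
    have h3 := tendsto_n2 hπ (fun n => w n * uL FF (s, 1) - uL FF (1, s) * w n)
      (CE.bdd_sub (CE.bdd_mul hb (CE.bdd_const _)) (CE.bdd_mul (CE.bdd_const _) hb))
    rw [hπ.quot.sub (CE.bdd_mul hb (CE.bdd_const _)) (CE.bdd_mul (CE.bdd_const _) hb),
      hπ.quot.mul _ _ hb (CE.bdd_const _), hπ.quot.mul _ _ (CE.bdd_const _) hb, h2] at h3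
    rw [n2_zero' hπ] at h3
    refine h3.congr fun n => ?_
    exact n2_tw (w n) s
  have h1 := (key (FreeGroup.of true)).eventually (gt_mem_nhds (show (0 : ℝ) < 1 / 40 by norm_num))
  have h2 := (key (FreeGroup.of false)).eventually (gt_mem_nhds (show (0 : ℝ) < 1 / 40 by norm_num))
  obtain ⟨n, hn1, hn2⟩ := (h1.and h2).exists
  have h3 := tw_gap (opL FF (w n) (sb FF 1)) (1 / 40) hn1.le hn2.le
  have h4 : ‖opL FF (w n) (sb FF 1)‖ = 1 := by
    have h5 := (gvn (G := FF)).n2_eq (w n)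
    rw [← h5]
    exact (gvn (G := FF)).n2_unitary (w n) (hw n)
  rw [h4] at h3
  norm_num at h3

end

theorem f2_icc (g : F2) (hg : g ≠ 1) : (Set.range fun h : F2 => h * g * h⁻¹).Infinite := by
  obtain ⟨B, E, h1, h2, h3, h4, h5⟩ := free_conj (X := Bool) true false (by decide)
  refine icc_of_gap ⟨B, E, FreeGroup.of true, FreeGroup.of false, h1, ?_, ?_, ?_, ?_⟩ g hg
  · rw [Set.disjoint_right]
    rintro _ ⟨x, hx, rfl⟩
    exact h3 x hx
  · rw [Set.disjoint_right]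
    rintro _ ⟨_, ⟨x, hx, rfl⟩, rfl⟩
    exact h4 x hx
  · rintro _ ⟨x, hx, rfl⟩
    exact h5 x hx
  · intro g hg
    by_contra hne
    exact hg (by rw [h2]; exact hne)

theorem ff_isICC : IsICC FF := by
  refine ⟨inferInstance, ?_⟩
  intro g hg
  by_cases h1 : g.1 = 1
  · have h2 : g.2 ≠ 1 := fun h => hg (Prod.ext h1 h)
    refine Set.Infinite.of_image Prod.snd ((f2_icc g.2 h2).mono ?_)
    rintro _ ⟨k, rfl⟩
    exact ⟨(1, k) * g * (1, k)⁻¹, ⟨(1, k), rfl⟩, rfl⟩
  · refine Set.Infinite.of_image Prod.fst ((f2_icc g.1 h1).mono ?_)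
    rintro _ ⟨k, rfl⟩
    exact ⟨(k, 1) * g * (k, 1)⁻¹, ⟨(k, 1), rfl⟩, rfl⟩

theorem ff_countable : Countable FF := by
  have : Countable F2 := by
    refine Function.Surjective.countable
      (f := fun L : List (Bool × Bool) => (FreeGroup.mk L : F2)) ?_
    intro x
    exact ⟨x.toWord, FreeGroup.mk_toWord⟩
  infer_instance

end Pool.Agent.H756R2
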