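import Mathlib
import Pool.Agent.H756R2.UcpFlip2

set_option autoImplicit false
set_option linter.unusedSectionVars false

open scoped Topology InnerProductSpace
open Filter

namespace Pool.Agent.H756R2

open Pool.Agent.Helper278 Pool.Agent.Helper436.SM Pool.Agent.Helper436.SN
open Pool.Agent.Helper278.CE hiding F2
open Pool.Agent.Helper159.GM (F2 free_act free_conj GVN gvn uL opL)

/-- the answer is negative for `N = M = L(F₂ × F₂)` and a period two automorphism -/
theorem flip_main (U : Ultrafilter ℕ) :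
    IsIIOneFactor (LG FF) (trL FF) ∧ IsSeparable (trL FF) ∧
      UcpNotUnitary U (trL FF) (trL FF) := by
  have := ff_countable
  refine ⟨iiOne_LG _ ff_isICC, sep_LG _, ?_⟩
  refine transport FF (fun N τ => UcpNotUnitary U τ τ) ?_
  obtain ⟨Q, _, _, _, _, π, σ, hπ⟩ := exists_ultrapower (Helper278.RG.TL (sb FF)) U
  have hπ' := CE.plain_tracial hπ
  exact ⟨Q, inferInstance, inferInstance, inferInstance, CE.plain π, σ, diag hπ',
    (diag hπ').comp flipF, hπ', ⟨⟨_, rfl⟩, diag_trace hπ'⟩,
    ⟨⟨_, rfl⟩, fun x => (diag_trace hπ' (flipF x)).trans (flipF_trace x)⟩,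
    ucpConj_hom hπ' flipF flipF_trace, flip_not_conj hπ'⟩

end Pool.Agent.H756R2
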